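import Mathlib
import Pool.Agent.Helper64.HG.Stmts

set_option autoImplicit false

namespace Pool.Agent.Helper64.HG

lemma nct_ch_iff {V : Type} (G : SimpleGraph V) (P : List V) : Ch G P ↔ List.IsChain G.Adj P := by
  unfold Ch
  exact List.isChain_iff_getElem.symm

lemma nct_ip_chain {V : Type} (G : SimpleGraph V) (P : List V) (h : IP G P) :
    List.IsChain G.Adj P := by
  rw [List.isChain_iff_getElem]
  intro i hi
  exact (h.2 i (i + 1) (by omega) hi (by omega)).2 rfl

lemma nct_anti_symm {V : Type} (G : SimpleGraph V) (A B : List V) (h : Anti G A B) :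
    Anti G B A := fun a ha b hb => ⟨fun hab => (h b hb a ha).1 hab.symm,
      fun hab => (h b hb a ha).2 hab.symm⟩

/-- decomposition of one path of a theta -/
lemma nct_dec (hS : ST_SPL) {V : Type} (G : SimpleGraph V) (u w : V) (A : List V)
    (hA : Link G u A w) (hl : 2 ≤ A.length) :
    ∃ (a : V) (A' : List V), A = a :: A' ∧ G.Adj u a ∧ Link G a A' w ∧ ¬ G.Adj a w ∧ a ≠ w ∧
      (∀ x ∈ A', x ∈ Far G u) := by
  obtain ⟨a, A', rfl⟩ : ∃ a A', A = a :: A' := by
    cases A with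
    | nil => simp at hl
    | cons a A' => exact ⟨a, A', rfl⟩
  have h1 := hS V G u a w [] A' hA
  obtain ⟨h2, _, _, h5, _, h7, _, h9, h10⟩ := h1
  have hne : A' ≠ [] := by
    rintro rfl
    simp at hl
  refine ⟨a, A', rfl, h2 rfl, (h5 hne).1, (h5 hne).2, fun h => h10 h.symm, ?_⟩
  intro x hx
  have := h7 u (by simp) x hx
  exact ⟨fun h => this.1 h.symm, this.2⟩

lemma nct_chain {V : Type} (G : SimpleGraph V) (a b w : V) (A B : List V)
    (hA : Link G a A w) (hB : Link G b B w) : Ch G (A ++ w :: B.reverse) := by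
  rw [nct_ch_iff, List.isChain_append]
  refine ⟨nct_ip_chain G A hA.2.1, ?_, ?_⟩
  · rw [List.isChain_cons]
    refine ⟨?_, ?_⟩
    · intro y hy
      rw [List.head?_reverse] at hy
      have hy' : B.getLast? = some y := hy
      have hm : y ∈ B := List.mem_of_getLast? hy'
      exact (hB.2.2.2.2.2 y hm).2 hy'
    · rw [List.isChain_reverse]
      have h1 := nct_ip_chain G B hB.2.1
      exact h1.imp (fun a b hab => hab.symm)
  · intro x hx y hy
    have hx' : A.getLast? = some x := hx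
    have hm : x ∈ A := List.mem_of_getLast? hx'
    have hy' : w = y := by
      have : some w = some y := hy
      exact Option.some.inj this
    rw [← hy']
    exact ((hA.2.2.2.2.2 x hm).2 hx').symm

lemma nct_pair {V : Type} (G : SimpleGraph V) (u w : V) (p : V → ℝ)
    (hp : ∀ (a b c : V) (P : List V), G.Adj u a → G.Adj u b → G.Adj u c → c ≠ a → c ≠ b → Ch G P →
      (∀ x ∈ P, x ∈ Far G u) → (∃ x ∈ P, G.Adj a x) → (∃ x ∈ P, G.Adj b x) →
      (∀ x ∈ P, ¬ G.Adj c x) → ¬ Btw p a c b)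
    (hw : w ∈ Far G u) (a b c : V) (A B C : List V)
    (ha : G.Adj u a) (hb : G.Adj u b) (hc : G.Adj u c)
    (hA : Link G a A w) (hB : Link G b B w) (hcw : ¬ G.Adj c w)
    (fA : ∀ x ∈ A, x ∈ Far G u) (fB : ∀ x ∈ B, x ∈ Far G u)
    (h1 : Anti G (c :: C) (a :: A)) (h2 : Anti G (c :: C) (b :: B)) : ¬ Btw p a c b := by
  have m1 : ∀ x ∈ A, x ≠ c ∧ ¬ G.Adj c x := fun x hx => by
    have := h1 c (by simp) x (by simp [hx])
    exact ⟨fun h => this.1 h.symm, this.2⟩
  have m2 : ∀ x ∈ B, x ≠ c ∧ ¬ G.Adj c x := fun x hx => by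
    have := h2 c (by simp) x (by simp [hx])
    exact ⟨fun h => this.1 h.symm, this.2⟩
  refine hp a b c (A ++ w :: B.reverse) ha hb hc (h1 c (by simp) a (by simp)).1
    (h2 c (by simp) b (by simp)).1 (nct_chain G a b w A B hA hB) ?_ ?_ ?_ ?_
  · intro x hx
    rcases List.mem_append.1 hx with h | h
    · exact fA x h
    · rcases List.mem_cons.1 h with h | h
      · rw [h]; exact hw
      · exact fB x (List.mem_reverse.1 h)
  · obtain ⟨x, A', hxA⟩ : ∃ x A', A = x :: A' := by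
      cases hA' : A with
      | nil => exact absurd hA' hA.1
      | cons x A' => exact ⟨x, A', rfl⟩
    have hm : x ∈ A := by rw [hxA]; simp
    refine ⟨x, List.mem_append.2 (Or.inl hm), ?_⟩
    exact (hA.2.2.2.2.1 x hm).2 (by rw [hxA]; rfl)
  · obtain ⟨x, B', hxB⟩ : ∃ x B', B = x :: B' := by
      cases hB' : B with
      | nil => exact absurd hB' hB.1
      | cons x B' => exact ⟨x, B', rfl⟩
    have hm : x ∈ B := by rw [hxB]; simp
    refine ⟨x, List.mem_append.2 (Or.inr (List.mem_cons.2 (Or.inr (List.mem_reverse.2 hm)))), ?_⟩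
    exact (hB.2.2.2.2.1 x hm).2 (by rw [hxB]; rfl)
  · intro x hx
    rcases List.mem_append.1 hx with h | h
    · exact (m1 x h).2
    · rcases List.mem_cons.1 h with h | h
      · rw [h]; exact hcw
      · exact (m2 x (List.mem_reverse.1 h)).2

theorem st_NCT (hBT : ST_BTW) (hS : ST_SPL) : ST_NCT := by
  intro V _ G hG hT hC
  obtain ⟨u, w, A, B, C, T⟩ := hT
  obtain ⟨p, hp1, hp2⟩ := hBT V G u hG hC
  obtain ⟨a, A', rfl, ha, lA, naw, _, fA⟩ := nct_dec hS G u w A T.linkA T.lA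
  obtain ⟨b, B', rfl, hb, lB, nbw, _, fB⟩ := nct_dec hS G u w B T.linkB T.lB
  obtain ⟨c, C', rfl, hc, lC, ncw, _, fC⟩ := nct_dec hS G u w C T.linkC T.lC
  have hw : w ∈ Far G u := ⟨fun h => T.ne h.symm, T.nadj⟩
  have k1 := nct_pair G u w p hp2 hw a b c A' B' C' ha hb hc lA lB ncw fA fB
    (nct_anti_symm G _ _ T.AC) (nct_anti_symm G _ _ T.BC)
  have k2 := nct_pair G u w p hp2 hw a c b A' C' B' ha hc hb lA lC nbw fA fC
    (nct_anti_symm G _ _ T.AB) T.BC
  have k3 := nct_pair G u w p hp2 hw b c a B' C' A' hb hc ha lB lC naw fB fC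
    T.AB T.AC
  have dab : p a ≠ p b := fun h => (T.AB a (by simp) b (by simp)).1 (hp1 a b ha hb h)
  have dac : p a ≠ p c := fun h => (T.AC a (by simp) c (by simp)).1 (hp1 a c ha hc h)
  have dbc : p b ≠ p c := fun h => (T.BC b (by simp) c (by simp)).1 (hp1 b c hb hc h)
  unfold Btw at k1 k2 k3
  rcases lt_or_gt_of_ne dab with h1 | h1 <;> rcases lt_or_gt_of_ne dac with h2 | h2 <;>
    rcases lt_or_gt_of_ne dbc with h3 | h3
  · exact k2 (Or.inl ⟨h1, h3⟩)
  · exact k1 (Or.inl ⟨h2, h3⟩)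
  · linarith
  · exact k3 (Or.inr ⟨h2, h1⟩)
  · exact k3 (Or.inl ⟨h1, h2⟩)
  · linarith
  · exact k1 (Or.inr ⟨h3, h2⟩)
  · exact k2 (Or.inr ⟨h3, h1⟩)

end Pool.Agent.Helper64.HG
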